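import Pool.Agent.N810.MU.RealCM

/-!
# Iwasawa's conjecture `μ = 0` and the fields generated by vectors in simple representations

For a prime `p` and a number field `F` let `F_m = F ℚ_m` be the layers of the cyclotomic
`ℤ_p`-extension. `X(F_cyc)` is finitely generated over `ℤ_p` (`μ = 0`) if and only if the degrees
`[M : F_m]` of the elementary abelian `p`-extensions `M` of the `F_m` which are unramified at all
finite primes are bounded. This is `MuZero p F` below.

For a representation `S` over `𝔽_p` of the Galois group of a number field and `v ∈ S` let `ℚ(v)` be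
the number field fixed by the stabilizer of `v`.

* Let `N` be a Galois number field. Then `μ = 0` for `N` (and for its subfields) if and only if every
  simple representation of `Gal(N/ℚ)` over `𝔽_p` contains ONE nonzero vector `v` with `μ = 0` for
  `ℚ(v)`. The vector can be chosen such that the degree of `ℚ(v)` is prime to `p`.
* `μ = 0` for all number fields if and only if `μ = 0` for the fields `ℚ(v)`, `v` a nonzero vector in
  a simple representation over `𝔽_p`, which have a real place or are CM fields of degree prime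
  to `p`.

All primes `p` are admitted, and `p` may divide the order of `Gal(N/ℚ)`.
-/

set_option autoImplicit false

open Module

open scoped Pointwise

namespace Pool.Agent.Results.MP_a4986b_nt.VectorFields

/-- the algebraic numbers -/
abbrev Qbar := AlgebraicClosure ℚ

/-- `σ` belongs to the inertia group of the valuation ring `A` -/
def Inertia (A : ValuationSubring Qbar) (σ : Gal(Qbar/ℚ)) : Prop :=
  σ • A = A ∧ ∀ x ∈ A, σ x - x ∈ A.nonunits

/-- The extension `M` of `E` is Galois with abelian Galois group of exponent `p` (or `1`). -/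
def ElementaryAbelian (p : ℕ) (E M : IntermediateField ℚ Qbar) : Prop :=
  E ≤ M ∧ (∀ σ ∈ E.fixingSubgroup, ∀ x ∈ M, σ x ∈ M) ∧
    (∀ σ ∈ E.fixingSubgroup, ∀ τ ∈ E.fixingSubgroup, ∀ x ∈ M, σ (τ x) = τ (σ x)) ∧
    ∀ σ ∈ E.fixingSubgroup, ∀ x ∈ M, (σ ^ p) x = x

/-- `M / E` is unramified at all finite primes: the elements of `Gal(ℚ̄/E)` in the inertia group of
any place act trivially on `M`. -/
def Unramified (E M : IntermediateField ℚ Qbar) : Prop :=
  ∀ A : ValuationSubring Qbar, ∀ σ ∈ E.fixingSubgroup, Inertia A σ → ∀ x ∈ M, σ x = x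

/-- `ℚ(μ_{p^∞})` -/
noncomputable def Cyc (p : ℕ) : IntermediateField ℚ Qbar :=
  IntermediateField.adjoin ℚ {z | ∃ k : ℕ, z ^ (p ^ k) = 1}

/-- `E` is one of the layers `ℚ = ℚ_0 ⊂ ℚ_1 ⊂ ...` of the cyclotomic `ℤ_p`-extension of `ℚ`: a real
subfield of `ℚ(μ_{p^∞})` whose degree is a power of `p` -/
def Layer (p : ℕ) (E : IntermediateField ℚ Qbar) : Prop :=
  E ≤ Cyc p ∧ (∃ m : ℕ, finrank ℚ E = p ^ m) ∧ Nonempty (E →+* ℝ)

/-- `μ = 0` for the field `F` and the prime `p`: the degrees over `F ℚ_m` of its elementary abelian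
`p`-extensions which are unramified at all finite primes are bounded, uniformly in `m`. -/
def MuZero (p : ℕ) (F : IntermediateField ℚ Qbar) : Prop :=
  ∃ C : ℕ, ∀ E, Layer p E → ∀ M : IntermediateField ℚ Qbar, FiniteDimensional ℚ M →
    ElementaryAbelian p (F ⊔ E) M → Unramified (F ⊔ E) M →
    finrank ℚ M ≤ C * finrank ℚ ↥(F ⊔ E)

/-- `S` with the action `τ` is a simple representation over `𝔽_p` of the Galois group of the number
field `N`. -/
def SimpleFor {p : ℕ} (N : IntermediateField ℚ Qbar) {S : Type} [AddCommGroup S]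
    [Module (ZMod p) S] (τ : Representation (ZMod p) Gal(Qbar/ℚ) S) : Prop :=
  (∀ g ∈ N.fixingSubgroup, ∀ x, τ g x = x) ∧ Nontrivial S ∧
    ∀ U : Submodule (ZMod p) S, (∀ g, ∀ x ∈ U, τ g x ∈ U) → U = ⊥ ∨ U = ⊤

/-- `F = ℚ(v)` is the field fixed by the stabilizer of the vector `v`. -/
def IsFieldOf {p : ℕ} {S : Type} [AddCommGroup S] [Module (ZMod p) S]
    (τ : Representation (ZMod p) Gal(Qbar/ℚ) S) (v : S) (F : IntermediateField ℚ Qbar) : Prop :=
  ∀ x, x ∈ F ↔ ∀ g : Gal(Qbar/ℚ), τ g v = v → g x = x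

open Pool.Agent.N810.MU Pool.Agent.Q60.MU

theorem localCond : LocalCond inertia :=
  ⟨fun g A σ hσ => inertia_conj g A σ hσ, 1, one_ne_zero, fun _ _ => le_rfl⟩

theorem mu_eq {p : ℕ} {F : IntermediateField ℚ Qbar} : MuZero p F ↔ MuZ inertia p F := by
  refine exists_congr fun C => forall_congr' fun E => forall_congr' fun _ => ?_
  constructor
  · intro h M h1 h2 h3 h4 h5 h6
    exact h M h2 ⟨h1, h3, h4, h5⟩ fun A σ hσ hA x hx => h6 A σ hA hσ x hx
  · rintro h M h2 ⟨h1, h3, h4, h5⟩ h6
    exact h M h1 h2 h3 h4 h5 fun A σ hA hσ x hx => h6 A σ hσ hA x hx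

theorem fieldOf_eq {p : ℕ} [Fact p.Prime] {S : Type} [AddCommGroup S] [Module (ZMod p) S]
    {τ : Representation (ZMod p) Gal(Qbar/ℚ) S} {v : S} {F : IntermediateField ℚ Qbar}
    (h : IsFieldOf τ v F) : F = IntermediateField.fixedField (stab τ v) := by
  ext x
  rw [h x, IntermediateField.mem_fixedField_iff]
  rfl

theorem isFieldOf {p : ℕ} [Fact p.Prime] {S : Type} [AddCommGroup S] [Module (ZMod p) S]
    (τ : Representation (ZMod p) Gal(Qbar/ℚ) S) (v : S) :
    IsFieldOf τ v (IntermediateField.fixedField (stab τ v)) := by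
  intro x
  rw [IntermediateField.mem_fixedField_iff]
  rfl

theorem below {p : ℕ} (hp : p.Prime) {N F : IntermediateField ℚ Qbar}
    (hN : FiniteDimensional ℚ N) (hNn : IsGalois ℚ N) (hFN : F ≤ N) (h : MuZero p N) :
    MuZero p F := by
  rw [mu_eq] at h ⊢
  exact mu_of_le hp N hN hNn h F hFN

theorem exists_vector {p : ℕ} [Fact p.Prime] {N : IntermediateField ℚ Qbar}
    (hN : FiniteDimensional ℚ N) (hNn : IsGalois ℚ N) {S : Type} [AddCommGroup S]
    [Module (ZMod p) S] [Module.Finite (ZMod p) S] (τ : Representation (ZMod p) Gal(Qbar/ℚ) S)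
    (hS : SimpleFor N τ) :
    ∃ v : S, v ≠ 0 ∧ ¬ p ∣ finrank ℚ (IntermediateField.fixedField (stab τ v)) := by
  have hnt : Nontrivial S := hS.2.1
  have hKn : N.fixingSubgroup.Normal := (InfiniteGalois.normal_iff_isGalois N).2 hNn
  obtain ⟨v, hv, P, hP, hPp⟩ := exists_vec_P hKn (index_ne_zero' N) τ hS.1
  have hle : N.fixingSubgroup ≤ stab τ v := fun g hg => hS.1 g hg v
  have hso : IsOpen (stab τ v : Set Gal(Qbar/ℚ)) :=
    Subgroup.isOpen_mono hle N.fixingSubgroup_isOpen
  refine ⟨v, hv, fun h => ?_⟩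
  rw [IntermediateField.finrank_eq_fixingSubgroup_index, fix_fixed hso] at h
  exact hPp (h.trans (Subgroup.index_dvd_of_le hP))

/-- one vector in each simple representation is enough -/
theorem from_vectors {p : ℕ} (hp : p.Prime) {N : IntermediateField ℚ Qbar}
    (hN : FiniteDimensional ℚ N) (hNn : IsGalois ℚ N)
    (h : ∀ (S : Type) [AddCommGroup S] [Module (ZMod p) S] [Module.Finite (ZMod p) S]
      (τ : Representation (ZMod p) Gal(Qbar/ℚ) S), SimpleFor N τ →
      ∃ v : S, v ≠ 0 ∧ ∃ F, IsFieldOf τ v F ∧ MuZero p F) : MuZero p N := by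
  have hpf : Fact p.Prime := ⟨hp⟩
  rw [mu_eq]
  refine detect localCond hp N hN hNn {E | E ≤ N ∧ MuZ inertia p E} (fun E hE => hE.1) ?_
    (fun E hE => hE.2) N le_rfl
  intro S _ _ _ τ hτ hs
  obtain ⟨v, hv, F, hF, hm⟩ := h S τ ⟨hτ, hs.1, hs.2⟩
  rw [fieldOf_eq hF, mu_eq] at hm
  exact ⟨_, ⟨stab_le_N hp τ hτ v, hm⟩, v, hv, fixing_le hp τ hτ v le_rfl⟩

/-- a field with a normal closure -/
theorem exists_closure (F : IntermediateField ℚ Qbar) (hF : FiniteDimensional ℚ F) :
    ∃ N : IntermediateField ℚ Qbar, F ≤ N ∧ FiniteDimensional ℚ N ∧ IsGalois ℚ N := by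
  have hUf : F.fixingSubgroup.FiniteIndex := ⟨index_ne_zero' F⟩
  have hKn : F.fixingSubgroup.normalCore.Normal := Subgroup.normalCore_normal _
  have hKo : IsOpen (F.fixingSubgroup.normalCore : Set Gal(Qbar/ℚ)) :=
    isOpen_normalCore F.fixingSubgroup_isOpen (index_ne_zero' F)
  have hKf : F.fixingSubgroup.normalCore.index ≠ 0 := by
    have : F.fixingSubgroup.normalCore.FiniteIndex := F.fixingSubgroup.finiteIndex_normalCore
    exact Subgroup.FiniteIndex.index_ne_zero
  refine ⟨IntermediateField.fixedField F.fixingSubgroup.normalCore,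
    (IntermediateField.le_iff_le _ _).2 (Subgroup.normalCore_le _), finite_fixed hKo hKf,
    (InfiniteGalois.normal_iff_isGalois _).1 ?_⟩
  rw [fix_fixed hKo]
  exact hKn

/-- The field `ℚ(v)` is CM if a complex conjugation acts by `-1` and `v ≠ v`'s negative. -/
theorem isCM {p : ℕ} [hpf : Fact p.Prime] {N : IntermediateField ℚ Qbar}
    (hN : FiniteDimensional ℚ N) {S : Type} [AddCommGroup S] [Module (ZMod p) S]
    (τ : Representation (ZMod p) Gal(Qbar/ℚ) S) (hτ : ∀ g ∈ N.fixingSubgroup, ∀ x, τ g x = x)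
    {ι : Qbar →+* ℂ} {c : Gal(Qbar/ℚ)} (hc : ∀ x, ι (c x) = star (ι x))
    (hneg : ∀ v, τ c v = -v) {v : S} (hv : τ c v ≠ v) :
    NumberField.IsCMField (IntermediateField.fixedField (stab τ v)) := by
  have hp := hpf.out
  have hcc : c * c = 1 := by
    ext x
    apply ι.injective
    rw [AlgEquiv.mul_apply, hc, hc, star_star, AlgEquiv.one_apply]
  have hso : IsOpen (stab τ v : Set Gal(Qbar/ℚ)) :=
    Subgroup.isOpen_mono (fun g hg => hτ g hg v) N.fixingSubgroup_isOpen
  have hcomm := comm_of_neg hp τ c hneg v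
  have hpres : ∀ x ∈ IntermediateField.fixedField (stab τ v),
      c x ∈ IntermediateField.fixedField (stab τ v) := by
    intro x hx
    rw [IntermediateField.mem_fixedField_iff] at hx ⊢
    intro g hg
    rw [← hcomm x ((IntermediateField.mem_fixedField_iff _ _).2 hx) g, hx g hg]
  have hcx : ∀ x, c (c x) = x := fun x => by
    rw [← AlgEquiv.mul_apply, hcc, AlgEquiv.one_apply]
  let s : RingAut (IntermediateField.fixedField (stab τ v)) :=
    { toFun := fun x => ⟨c x, hpres x x.2⟩
      invFun := fun x => ⟨c x, hpres x x.2⟩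
      left_inv := fun x => Subtype.ext (hcx x)
      right_inv := fun x => Subtype.ext (hcx x)
      map_mul' := fun x y => Subtype.ext (map_mul c (x : Qbar) y)
      map_add' := fun x y => Subtype.ext (map_add c (x : Qbar) y) }
  refine isCM_of s ?_ ?_ ⟨ι.comp (algebraMap _ Qbar)⟩
  · intro hs1
    apply hv
    have h1 : c ∈ (IntermediateField.fixedField (stab τ v)).fixingSubgroup := by
      rw [IntermediateField.mem_fixingSubgroup_iff]
      intro x hx
      have h2 := congrArg (fun t : RingAut (IntermediateField.fixedField (stab τ v)) =>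
        ((t ⟨x, hx⟩ : IntermediateField.fixedField (stab τ v)) : Qbar)) hs1
      exact h2
    rw [fix_fixed hso] at h1
    exact h1
  · intro φ x
    obtain ⟨g, hg⟩ := exists_ext ι _ φ
    rw [← hg, ← hg]
    show ι (g (c x)) = _
    rw [← hcomm x x.2 g, hc]

/-- **Iwasawa's conjecture and vectors in simple representations.** Let `p` be a prime number.

(1) For every Galois number field `N` the following are equivalent: `μ = 0` for `N`; `μ = 0` for
all subfields of `N`; every simple representation of `Gal(N/ℚ)` over `𝔽_p` has a nonzero vector `v`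
such that `μ = 0` for `ℚ(v)`; every simple representation has a nonzero vector `v` such that the
degree of `ℚ(v)` is prime to `p` and `μ = 0` for `ℚ(v)`.

(2) The following are equivalent: `μ = 0` for all number fields; every simple representation over
`𝔽_p` of the Galois group of a number field has a nonzero vector `v` with `μ = 0` for `ℚ(v)`;
`μ = 0` for `ℚ(v)` for all nonzero vectors `v` in such representations for which `ℚ(v)` has a real
place or is a CM field of degree prime to `p`. -/
theorem result (p : ℕ) (hp : p.Prime) :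
    (∀ N : IntermediateField ℚ Qbar, FiniteDimensional ℚ N → IsGalois ℚ N →
      List.TFAE [MuZero p N,
        ∀ F : IntermediateField ℚ Qbar, F ≤ N → MuZero p F,
        ∀ (S : Type) [AddCommGroup S] [Module (ZMod p) S] [Module.Finite (ZMod p) S]
          (τ : Representation (ZMod p) Gal(Qbar/ℚ) S), SimpleFor N τ →
          ∃ v : S, v ≠ 0 ∧ ∃ F, IsFieldOf τ v F ∧ MuZero p F,
        ∀ (S : Type) [AddCommGroup S] [Module (ZMod p) S] [Module.Finite (ZMod p) S]
          (τ : Representation (ZMod p) Gal(Qbar/ℚ) S), SimpleFor N τ →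
          ∃ v : S, v ≠ 0 ∧ ∃ F, IsFieldOf τ v F ∧ ¬ p ∣ finrank ℚ F ∧ MuZero p F]) ∧
    List.TFAE [∀ F : IntermediateField ℚ Qbar, FiniteDimensional ℚ F → MuZero p F,
      ∀ N : IntermediateField ℚ Qbar, FiniteDimensional ℚ N → IsGalois ℚ N →
        ∀ (S : Type) [AddCommGroup S] [Module (ZMod p) S] [Module.Finite (ZMod p) S]
          (τ : Representation (ZMod p) Gal(Qbar/ℚ) S), SimpleFor N τ →
          ∃ v : S, v ≠ 0 ∧ ∃ F, IsFieldOf τ v F ∧ MuZero p F,
      ∀ N : IntermediateField ℚ Qbar, FiniteDimensional ℚ N → IsGalois ℚ N →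
        ∀ (S : Type) [AddCommGroup S] [Module (ZMod p) S] [Module.Finite (ZMod p) S]
          (τ : Representation (ZMod p) Gal(Qbar/ℚ) S), SimpleFor N τ →
          ∀ v : S, v ≠ 0 → ∀ F, IsFieldOf τ v F →
            (Nonempty (F →+* ℝ) ∨ (NumberField.IsCMField F ∧ ¬ p ∣ finrank ℚ F)) →
            MuZero p F] := by
  have hpf : Fact p.Prime := ⟨hp⟩
  have hvec : ∀ N : IntermediateField ℚ Qbar, ∀ (S : Type) [AddCommGroup S] [Module (ZMod p) S]
      (τ : Representation (ZMod p) Gal(Qbar/ℚ) S), SimpleFor N τ → ∀ (v : S) F,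
      IsFieldOf τ v F → F ≤ N := by
    intro N S _ _ τ hS v F hF
    rw [fieldOf_eq hF]
    exact stab_le_N hp τ hS.1 v
  refine ⟨fun N hN hNn => ?_, ?_⟩
  · tfae_have 1 → 2 := fun h F hF => below hp hN hNn hF h
    tfae_have 2 → 4 := by
      intro h S _ _ _ τ hS
      obtain ⟨v, hv, hd⟩ := exists_vector hN hNn τ hS
      exact ⟨v, hv, _, isFieldOf τ v, hd, h _ (stab_le_N hp τ hS.1 v)⟩
    tfae_have 4 → 3 := by
      intro h S _ _ _ τ hS
      obtain ⟨v, hv, F, hF, -, hm⟩ := h S τ hS
      exact ⟨v, hv, F, hF, hm⟩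
    tfae_have 3 → 1 := fun h => from_vectors hp hN hNn h
    tfae_finish
  · tfae_have 1 → 3 := by
      intro h N hN hNn S _ _ _ τ hS v _ F hF _
      have hFN := hvec N S τ hS v F hF
      exact h F (Submodule.finiteDimensional_of_le (S₁ := Subalgebra.toSubmodule F.toSubalgebra)
        (S₂ := Subalgebra.toSubmodule N.toSubalgebra) hFN)
    tfae_have 3 → 2 := by
      intro h N hN hNn S _ _ _ τ hS
      obtain ⟨ι⟩ : Nonempty (Qbar →+* ℂ) := by
        have := isAlg_Qb
        exact ⟨(IsAlgClosed.lift (R := ℚ) (S := Qb) (M := ℂ)).toRingHom⟩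
      obtain ⟨c, hc⟩ := exists_gal ι ((starRingEnd ℂ).comp ι)
      have hc : ∀ x, ι (c x) = star (ι x) := hc
      have hcc : c * c = 1 := by
        ext x
        apply ι.injective
        rw [AlgEquiv.mul_apply, hc, hc, star_star, AlgEquiv.one_apply]
      have hc2 : ∀ x, τ c (τ c x) = x := by
        intro x
        rw [← Module.End.mul_apply, ← map_mul, hcc, map_one, Module.End.one_apply]
      by_cases hex : ∃ v : S, v ≠ 0 ∧ τ c v = v
      · obtain ⟨v, hv, hcv⟩ := hex
        refine ⟨v, hv, _, isFieldOf τ v,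
          h N hN hNn S τ hS v hv _ (isFieldOf τ v) (Or.inl (real_of hc _ ?_))⟩
        intro x hx
        exact (IntermediateField.mem_fixedField_iff _ _).1 hx c hcv
      · have hneg : ∀ v, τ c v = -v := (inv_or τ c hc2).resolve_left hex
        obtain ⟨v, hv, hd⟩ := exists_vector hN hNn τ hS
        exact ⟨v, hv, _, isFieldOf τ v, h N hN hNn S τ hS v hv _ (isFieldOf τ v)
          (Or.inr ⟨isCM hN τ hS.1 hc hneg fun h1 => hex ⟨v, hv, h1⟩, hd⟩)⟩
    tfae_have 2 → 1 := by
      intro h F hF
      obtain ⟨N, hFN, hN, hNn⟩ := exists_closure F hF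
      exact below hp hN hNn hFN
        (from_vectors hp hN hNn fun S _ _ _ τ hS => h N hN hNn S τ hS)
    tfae_finish

end Pool.Agent.Results.MP_a4986b_nt.VectorFields
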